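import Pool.Agent.K1H26.Cheeger.Main

/-!
# The regular `n`-gon does not minimize the anisotropic Cheeger functional of the disk

For every even `n ≥ 24` there is a centrally symmetric convex polygon `P` with exactly `n` vertices
(`n` sides) with `J_B[P] < J_B[P*_n]`, where `P*_n` is the regular `n`-gon circumscribed about the
unit disk `B`.

The polygons `P` are close to the square `[-1, 1] ^ 2`. The test set `B ∩ [-23/25, 23/25] ^ 2` has
anisotropic perimeter at most `8 * 23 / 25` for every body inside the square, and `|P°|` is at most
`4000 / 1999`. For `P*_n` the vector field `V x = x` is a calibration: `h(B) ≥ 2`, and `P*_n°` contains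
the disk of radius `cos (π / n)`.
-/

set_option autoImplicit false

namespace Pool.Agent.Results.MP_4eea03_an.RegularNotOptimal

open Pool.Agent.K1H26.Cheeger

theorem result : ∀ n : ℕ, 24 ≤ n → Even n →
    ∃ P : Set Plane, IsPoly n P ∧ J disk P < J disk (regular n) :=
  fun n hn he => main n hn he

end Pool.Agent.Results.MP_4eea03_an.RegularNotOptimal
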